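import Pool.Agent.Q49.WU.Origin

/-!
# The Eichler-Shimura conjecture for Hilbert newforms and hypergraphs

Let `F` be a totally real number field and `M` the category of motives over `F` for motivated (or absolute
Hodge) cycles, a semisimple abelian category with Tate twists `N ↦ N(a)`. For a separated scheme `X` of
finite type over `ℚ` let `D.H m n X` be the motive `Gr^W_{1+2m} H^n_c(X_F)`. For smooth projective `Y` the
motive `D.H 0 n Y` is `h^1(Y_F)` if `n = 1`, and zero for all other `n`; in odd weight the point `Spec ℚ`
contributes zero (hypothesis `point`).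

`V` is the set of the simple abelian varieties over `F` (up to isomorphism) and `h1 B = h^1(B)`, a simple
motive (hypothesis `simple`), pure of weight one (hypothesis `weight`), and a direct factor of
`h^1(Y_F)` for the smooth projective scheme `Y = B` over `ℚ` (hypothesis `scheme`). For a Hilbert newform
`f : W` of parallel weight `2` over `F`, `assoc f B` says that `B` is isogenous to an abelian variety with
the properties (i)-(iv) of question Q1 for `f`; these imply that it is simple.

**Theorem.** (1) For every simple abelian variety `B` over `F` there is a smooth affine cubic hypersurface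
`X_H : ∑_{(p, q, r) ∈ H} x_p y_q z_r = 1` over `ℚ` with coefficients `0` and `1`, `H` a finite set of triples,
such that `h^1(B)` is a direct factor of `Gr^W_{2a-1} H^n_c((X_H)_F)(a - 1)` for some `n`, where `a` is the
number of the variables `x_p`.

(2) A Hilbert newform `f` of parallel weight `2` over `F` has an associated abelian variety if and only if
for some finite set `H` of triples, some `n` and some simple abelian variety `B` over `F` with
`assoc f B`, the motive `h^1(B)` is a direct factor of `Gr^W_{2a-1} H^n_c((X_H)_F)(a - 1)`.
-/

set_option autoImplicit false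

open CategoryTheory CategoryTheory.Limits AlgebraicGeometry Pool.Agent.Y116.UV Pool.Agent.Z125.UN
  Pool.Agent.Q193.LT Pool.Agent.Q49.WU

universe v u

namespace Pool.Agent.Results.MP_e1ffa3_nt.HypergraphMotives

/-- **The Eichler-Shimura conjecture for Hilbert newforms and hypergraphs.** See the explanations above. -/
theorem result {F : Type} [Field F] [NumberField F] [NumberField.IsTotallyReal F] {M : Type u}
    [Category.{v} M] [Abelian M] {D : WeightData ℚ M} (h : IsWMotives D) {V W : Type}
    {h1 : V → M} {assoc : W → V → Prop} (simple : ∀ B, Simple (h1 B))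
    (weight : ∀ B, HasWeight D (h1 B)) (point : ∀ B N, ¬ OccursAt D (h1 B) N (aff ℚ ℚ))
    (scheme : ∀ B, ∃ Y : Sch ℚ, SmoothProj Y ∧ OccursAt D (h1 B) 0 Y) :
    (∀ B, ∃ (a b c : ℕ) (H : Finset (Fin a × Fin b × Fin c)),
      OccursAt D (h1 B) (a - 1) (tripS ℚ H)) ∧
    ∀ f, (∃ B, assoc f B) ↔ ∃ (a b c : ℕ) (H : Finset (Fin a × Fin b × Fin c)) (B : V),
      assoc f B ∧ OccursAt D (h1 B) (a - 1) (tripS ℚ H) := by
  have key : ∀ B, ∃ (a b c : ℕ) (H : Finset (Fin a × Fin b × Fin c)),
      OccursAt D (h1 B) (a - 1) (tripS ℚ H) := by
    intro B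
    have := simple B
    have h2 := origin_graphs h.weight h.generated (weight B) (point B) frac_rat 0
    simp only [zero_add] at h2
    exact h2.mp (scheme B)
  refine ⟨key, fun f => ⟨?_, ?_⟩⟩
  · rintro ⟨B, hB⟩
    obtain ⟨a, b, c, H, h2⟩ := key B
    exact ⟨a, b, c, H, B, hB, h2⟩
  · rintro ⟨a, b, c, H, B, hB, _⟩
    exact ⟨B, hB⟩

end Pool.Agent.Results.MP_e1ffa3_nt.HypergraphMotives
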