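import Pool.Agent.Q193.LT.Simp
import Pool.Agent.Q193.LT.Crit

/-!
# The Eichler-Shimura conjecture for Hilbert newforms and motives of cubics

Let `F` be a totally real number field and `M` the category of motives over `F` for motivated (or absolute
Hodge) cycles, a semisimple abelian category with Tate twists `N ↦ N(a)`. For a separated scheme `X` of
finite type over `ℚ` let `D.H i X` be the object of `M` given by the graded object of the weight filtration
of the cohomology with compact supports of `X_F`, in degree `i`; for smooth projective `X` it is the motive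
`h^i(X_F)`. The standard properties of these motives are `IsMotives D`.

For a simple abelian variety `B` over `F` (the type `V` of all simple abelian varieties over `F`) let
`h1 B = h^1(B)`. It is a simple object of `M` (Deligne, André: the endomorphisms of `h^1(B)` come from
`End(B) ⊗ ℚ`, which is a division algebra; hypothesis `simple`), and a direct factor of `D.H 1 Y` for a
smooth projective curve `Y` over `ℚ`, namely a curve over `F` in `B` that generates `B`, considered over `ℚ`
(hypothesis `jacobian`). The motives of the point are zero or `1`, and no `h^1(B)` is a direct factor of a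
Tate twist of them (hypothesis `point`). For a Hilbert newform `f` of parallel weight two over `F` (the type
`W` of newforms) let `assoc f B` be the statement that `B` is isogenous to an abelian variety with the
properties (i)-(iv) of question Q1 for `f`; such an abelian variety is simple over `F`. So `f` has an
associated abelian variety if and only if `assoc f B` for some simple abelian variety `B` over `F`.

In the semisimple category `M`, `Occurs D (h1 B) N` says that `h^1(B)` is a direct factor of a Tate twist of
`N`.

**Theorem.** (1) For every simple abelian variety `B` over `F` the motive `h^1(B)` is a direct factor of a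
Tate twist of `Gr^W H^i_c(Z_F)` for some `i` and some smooth affine cubic hypersurface `Z : T(x, y, z) = 1`,
where `T` is a trilinear form with *rational* coefficients such that one of the three blocks of variables
has at most three variables (the other two blocks are arbitrary).

(2) A newform `f` has an associated abelian variety if and only if some simple factor of the motives
`Gr^W H^i_c(Z_F)(a)` of these cubic hypersurfaces `Z` over `ℚ` is the motive `h^1(B)` of an abelian variety
`B` that is isogenous to one with the properties (i)-(iv).
-/

set_option autoImplicit false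

open CategoryTheory CategoryTheory.Limits AlgebraicGeometry Pool.Agent.Y116.UV Pool.Agent.Z125.UN
  Pool.Agent.Q193.LT

universe v u

namespace Pool.Agent.Results.MP_e1ffa3_nt.MotivesOfCubics

/-- **Abelian varieties over totally real fields and motives of cubic hypersurfaces over `ℚ`.** See the
explanations above. -/
theorem result {F : Type} [Field F] [NumberField F] [NumberField.IsTotallyReal F] {M : Type u}
    [Category.{v} M] [Abelian M] {D : CompactData ℚ M} (h : IsMotives D) {V W : Type 1}
    {h1 : V → M} {assoc : W → V → Prop} (simple : ∀ B, Simple (h1 B))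
    (point : ∀ B i, ¬ Occurs D (h1 B) (D.H i (aff ℚ ℚ)))
    (jacobian : ∀ B, ∃ Y : Sch ℚ, SmoothProj Y ∧ topologicalKrullDim Y.left ≤ (1 : ℕ) ∧
      ∃ i, Occurs D (h1 B) (D.H i Y)) :
    (∀ B, ∃ (a b c : ℕ) (T : Fin a → Fin b → Fin c → ℚ), (a ≤ 3 ∨ b ≤ 3 ∨ c ≤ 3) ∧
      ∃ i, Occurs D (h1 B) (D.H i (hypS T))) ∧
    ∀ f, (∃ B, assoc f B) ↔
      ∃ (a b c : ℕ) (T : Fin a → Fin b → Fin c → ℚ), (a ≤ 3 ∨ b ≤ 3 ∨ c ≤ 3) ∧
        ∃ i B, Occurs D (h1 B) (D.H i (hypS T)) ∧ assoc f B := by
  have h2 : ∀ B, ∃ (a b c : ℕ) (T : Fin a → Fin b → Fin c → ℚ), (a ≤ 3 ∨ b ≤ 3 ∨ c ≤ 3) ∧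
      ∃ i, Occurs D (h1 B) (D.H i (hypS T)) := by
    intro B
    have := simple B
    rcases (origin_proj h.compact (h1 B) h.generated 1).mp (jacobian B) with ⟨i, hi⟩ | h3
    · exact absurd hi (point B i)
    · exact h3
  refine ⟨h2, fun f => ⟨?_, ?_⟩⟩
  · rintro ⟨B, hB⟩
    obtain ⟨a, b, c, T, hm, i, hi⟩ := h2 B
    exact ⟨a, b, c, T, hm, i, B, hi, hB⟩
  · rintro ⟨a, b, c, T, hm, i, B, hi, hB⟩
    exact ⟨B, hB⟩

end Pool.Agent.Results.MP_e1ffa3_nt.MotivesOfCubics
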